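import Mathlib

/-!
# MP_3155f9_ag: the two-parameter family `(x³ + y⁵ + a y⁶ + b y⁸, x² y + x y²)` in characteristic 2

All members of the family are contact equivalent. The proof: in the quotient of `F[[x, y]]` by the
ideal of `f_{a,b}` one has `x y⁴ = 0`, `x⁴ = 0` and `y⁷ = 0`, so the term `b y⁸` is irrelevant, and
the automorphism `x ↦ x / (1 + e x)`, `y ↦ y / (1 + e y)`, which in characteristic 2 preserves the
three lines `x y (x + y) = 0`, changes the coefficient of `y⁶` from `a` to `a + e`.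
-/

set_option autoImplicit false

namespace Pool.Agent.Results.MP_3155f9_ag.AllEquivalent

open MvPowerSeries

/-- The ring `R = F[[x, y]]`. The variables are `x = X 0` and `y = X 1`. -/
abbrev PS (F : Type*) [Field F] : Type _ := MvPowerSeries (Fin 2) F

/-- Contact equivalence of two pairs `f, g ∈ R²`, `R = F[[x, y]]`: there are `U ∈ GL(2, R)` and an
`F`-algebra automorphism `φ` of `R` with `g = U · φ(f)`. -/
def ContactEquivalent {F : Type*} [Field F] (f g : Fin 2 → PS F) : Prop :=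
  ∃ (U : GL (Fin 2) (PS F)) (φ : PS F ≃ₐ[F] PS F),
    g = (U : Matrix (Fin 2) (Fin 2) (PS F)).mulVec (fun i => φ (f i))

/-- The pair `f_{a,b} = (x³ + y⁵ + a y⁶ + b y⁸, x² y + x y²)`. -/
noncomputable def fam {F : Type*} [Field F] (a b : F) : Fin 2 → PS F :=
  ![X 0 ^ 3 + X 1 ^ 5 + C a * X 1 ^ 6 + C b * X 1 ^ 8, X 0 ^ 2 * X 1 + X 0 * X 1 ^ 2]

section algebra

variable {R : Type*} [CommRing R]

lemma phi_h (h2 : (2 : R) = 0) (x y e u v : R) (hu : u * (1 + e * x) = 1)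
    (hv : v * (1 + e * y) = 1) :
    (x * u) ^ 2 * (y * v) + (x * u) * (y * v) ^ 2 = (u ^ 2 * v ^ 2) * (x ^ 2 * y + x * y ^ 2) := by
  linear_combination (-(x ^ 2 * y * u ^ 2 * v)) * hv + (-(x * y ^ 2 * u * v ^ 2)) * hu +
    (x ^ 2 * y ^ 2 * e * u ^ 2 * v ^ 2) * h2

/-- the element `Q` -/
def QQ (a b d e y v : R) : R :=
  5 * e * (e * v) + 10 * (e * v) ^ 2 - 10 * y * (e * v) ^ 3 + 5 * y ^ 2 * (e * v) ^ 4
    - y ^ 3 * (e * v) ^ 5
    + a * (-6 * (e * v) + 15 * y * (e * v) ^ 2 - 20 * y ^ 2 * (e * v) ^ 3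
      + 15 * y ^ 3 * (e * v) ^ 4 - 6 * y ^ 4 * (e * v) ^ 5 + y ^ 5 * (e * v) ^ 6)
    + y * (b * v ^ 8 - d)

lemma phi_g (h2 : (2 : R) = 0) (x y a b c d e u v : R) (he : e = a + c)
    (hu : u * (1 + e * x) = 1) (hv : v * (1 + e * y) = 1) :
    (x * u) ^ 3 + (y * v) ^ 5 + a * (y * v) ^ 6 + b * (y * v) ^ 8 =
      (x ^ 3 + y ^ 5 + c * y ^ 6 + d * y ^ 8) + x ^ 4 * (-(e * u * (u ^ 2 + u + 1))) +
        y ^ 7 * QQ a b d e y v := by
  have hv1 : v = 1 - y * (e * v) := by linear_combination hv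
  have hp : (e * v) + e * y * (e * v) = e := by linear_combination e * hv
  have h5 : v ^ 5 = (1 - y * (e * v)) ^ 5 := by rw [← hv1]
  have h6 : v ^ 6 = (1 - y * (e * v)) ^ 6 := by rw [← hv1]
  unfold QQ
  linear_combination (x ^ 3 * (u ^ 2 + u + 1)) * hu + y ^ 5 * h5 + a * y ^ 6 * h6 +
    (-5 * y ^ 6) * hp + (-5 * y ^ 6) * he + (- (2 * a + 3 * c) * y ^ 6) * h2

lemma x_y4 (x y c d : R) : x * y ^ 4 * (1 - y ^ 2 - c * y ^ 3 - d * y ^ 5) =
    (x ^ 2 - x * y + y ^ 2) * (x ^ 2 * y + x * y ^ 2) -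
      x * y * (x ^ 3 + y ^ 5 + c * y ^ 6 + d * y ^ 8) := by
  ring

lemma x4 (x y c d : R) : x ^ 4 = x * (x ^ 3 + y ^ 5 + c * y ^ 6 + d * y ^ 8) -
    (y + c * y ^ 2 + d * y ^ 4) * (x * y ^ 4) := by
  ring

lemma y7 (x y c d : R) : y ^ 7 * (1 + c * y + d * y ^ 3) =
    y ^ 2 * (x ^ 3 + y ^ 5 + c * y ^ 6 + d * y ^ 8) -
      (x * y - y ^ 2) * (x ^ 2 * y + x * y ^ 2) - x * y ^ 4 := by
  ring

/-- The main computation: `φ(g) = (1 + x α + y β) g' + s h`. -/
lemma main (h2 : (2 : R) = 0) (x y a b c d e u v ε δ : R) (he : e = a + c)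
    (hu : u * (1 + e * x) = 1) (hv : v * (1 + e * y) = 1)
    (hε : ε * (1 - y ^ 2 - c * y ^ 3 - d * y ^ 5) = 1)
    (hδ : δ * (1 + c * y + d * y ^ 3) = 1) :
    ∃ α β s : R, (x * u) ^ 3 + (y * v) ^ 5 + a * (y * v) ^ 6 + b * (y * v) ^ 8 =
      (1 + x * α + y * β) * (x ^ 3 + y ^ 5 + c * y ^ 6 + d * y ^ 8) +
        s * (x ^ 2 * y + x * y ^ 2) := by
  set g := x ^ 3 + y ^ 5 + c * y ^ 6 + d * y ^ 8 with hg
  set h := x ^ 2 * y + x * y ^ 2 with hh
  have e1 : x * y ^ 4 = ε * ((x ^ 2 - x * y + y ^ 2) * h - x * y * g) := by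
    rw [hg, hh, ← x_y4]
    linear_combination (-(x * y ^ 4)) * hε
  have e2 : x ^ 4 = x * g - (y + c * y ^ 2 + d * y ^ 4) *
      (ε * ((x ^ 2 - x * y + y ^ 2) * h - x * y * g)) := by
    rw [← e1]; exact x4 x y c d
  have e3 : y ^ 7 = δ * (y ^ 2 * g - (x * y - y ^ 2) * h -
      ε * ((x ^ 2 - x * y + y ^ 2) * h - x * y * g)) := by
    rw [← e1, hg, hh, ← y7]
    linear_combination (-(y ^ 7)) * hδ
  refine ⟨-(e * u * (u ^ 2 + u + 1)) * (1 + (y + c * y ^ 2 + d * y ^ 4) * ε * y),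
    δ * QQ a b d e y v * (y + ε * x),
    -(e * u * (u ^ 2 + u + 1)) * (-((y + c * y ^ 2 + d * y ^ 4) *
      (ε * (x ^ 2 - x * y + y ^ 2)))) +
      QQ a b d e y v * (δ * (-(x * y - y ^ 2) - ε * (x ^ 2 - x * y + y ^ 2))), ?_⟩
  rw [phi_g h2 x y a b c d e u v he hu hv, ← hg, e2, e3]
  ring

end algebra

section automorphism

variable {F : Type*} [Field F]

/-- The power series `1 + e x` and `1 + e y`. -/
noncomputable def den (e : F) (i : Fin 2) : PS F := 1 + C e * X i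

lemma constantCoeff_den (e : F) (i : Fin 2) : constantCoeff (den e i) = 1 := by
  simp [den]

/-- The images `x / (1 + e x)` and `y / (1 + e y)` of the variables. -/
noncomputable def img (e : F) (i : Fin 2) : PS F := X i * (den e i)⁻¹

lemma inv_mul_den (e : F) (i : Fin 2) : (den e i)⁻¹ * (1 + C e * X i) = 1 :=
  MvPowerSeries.inv_mul_cancel _ (by rw [constantCoeff_den]; exact one_ne_zero)

lemma hasSubst_img (e : F) : HasSubst (img e) :=
  hasSubst_of_constantCoeff_zero fun i => by simp [img]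

/-- The endomorphism `x ↦ x / (1 + e x)`, `y ↦ y / (1 + e y)`. -/
noncomputable def phi (e : F) : PS F →ₐ[F] PS F := substAlgHom (hasSubst_img e)

lemma phi_X (e : F) (i : Fin 2) : phi e (X i) = X i * (den e i)⁻¹ := by
  rw [phi, substAlgHom_X]
  rfl

lemma phi_C (e c : F) : phi e (C c) = C c := by
  have h : (C c : PS F) = algebraMap F (PS F) c := rfl
  rw [h, AlgHom.commutes]

lemma phi_img (h2 : (2 : F) = 0) (e : F) (i : Fin 2) : phi e (img e i) = X i := by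
  have h2' : (2 : PS F) = 0 := by
    have h3 : (C (2 : F) : PS F) = 2 := map_ofNat C 2
    rw [← h3, h2, map_zero]
  have hu := inv_mul_den e i
  have h1 : phi e ((den e i)⁻¹) * phi e (1 + C e * X i) = 1 := by
    rw [← map_mul, hu, map_one]
  rw [map_add, map_one, map_mul, phi_C, phi_X] at h1
  rw [img, map_mul, phi_X]
  set u := (den e i)⁻¹
  set w := phi e u
  have h3 : 1 + C e * (X i * u) = u := by
    linear_combination hu.symm + (C e * X i * u) * h2' 
  rw [h3] at h1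
  linear_combination (X i) * h1

lemma phi_phi (h2 : (2 : F) = 0) (e : F) : (phi e).comp (phi e) = AlgHom.id F (PS F) := by
  apply AlgHom.ext
  intro f
  rw [AlgHom.comp_apply, phi, substAlgHom_comp_substAlgHom_apply, substAlgHom_apply]
  have : (fun s => (substAlgHom (hasSubst_img e)) (img e s)) = (X : Fin 2 → PS F) := by
    funext s
    exact phi_img h2 e s
  rw [this, subst_self]
  rfl

/-- The automorphism `x ↦ x / (1 + e x)`, `y ↦ y / (1 + e y)`. -/
noncomputable def phiEquiv (h2 : (2 : F) = 0) (e : F) : PS F ≃ₐ[F] PS F :=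
  AlgEquiv.ofAlgHom (phi e) (phi e) (phi_phi h2 e) (phi_phi h2 e)

end automorphism

/-- Let `F` be a field of characteristic `2` (for example an algebraically closed one). For all
`a, b, c, d ∈ F` the pairs `f_{a,b} = (x³ + y⁵ + a y⁶ + b y⁸, x² y + x y²)` and `f_{c,d}` in
`F[[x, y]]²` are contact equivalent. -/
theorem result (F : Type*) [Field F] [CharP F 2] (a b c d : F) :
    ContactEquivalent (fam a b) (fam c d) := by
  have h2 : (2 : F) = 0 := by exact_mod_cast CharP.cast_eq_zero F 2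
  have h2' : (2 : PS F) = 0 := by
    have h3 : (C (2 : F) : PS F) = 2 := map_ofNat C 2
    rw [← h3, h2, map_zero]
  have hunit : ∀ f : PS F, constantCoeff f = 1 → IsUnit f := fun f hf => by
    rw [MvPowerSeries.isUnit_iff_constantCoeff, hf]
    exact isUnit_one
  set e : F := a + c with he
  have hu := inv_mul_den e 0
  have hv := inv_mul_den e 1
  set u : PS F := (den e 0)⁻¹ with hu0
  set v : PS F := (den e 1)⁻¹ with hv0
  obtain ⟨ε, hε⟩ := (hunit (1 - X 1 ^ 2 - C c * X 1 ^ 3 - C d * X 1 ^ 5) (by simp)).exists_left_inv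
  obtain ⟨δ, hδ⟩ := (hunit (1 + C c * X 1 + C d * X 1 ^ 3) (by simp)).exists_left_inv
  obtain ⟨α, β, s, hm⟩ := main h2' (X 0) (X 1) (C a) (C b) (C c) (C d) (C e) u v ε δ
    (by rw [he, map_add]) hu hv hε hδ
  obtain ⟨t, ht⟩ := (hunit (1 + X 0 * α + X 1 * β) (by simp)).exists_left_inv
  have hh := phi_h h2' (X 0) (X 1) (C e) u v hu hv
  set D0 : PS F := 1 + C e * X 0
  set D1 : PS F := 1 + C e * X 1
  set g : PS F := X 0 ^ 3 + X 1 ^ 5 + C c * X 1 ^ 6 + C d * X 1 ^ 8 with hg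
  set h : PS F := X 0 ^ 2 * X 1 + X 0 * X 1 ^ 2 with hhdef
  have hdet : (!![t, -(t * s * (D0 ^ 2 * D1 ^ 2)); 0, D0 ^ 2 * D1 ^ 2] :
      Matrix (Fin 2) (Fin 2) (PS F)).det * ((1 + X 0 * α + X 1 * β) * (u ^ 2 * v ^ 2)) = 1 := by
    rw [Matrix.det_fin_two_of]
    have e1 : (u * D0) ^ 2 * (v * D1) ^ 2 = 1 := by rw [hu, hv]; ring
    linear_combination ((u * D0) ^ 2 * (v * D1) ^ 2) * ht + e1
  have hU : IsUnit (!![t, -(t * s * (D0 ^ 2 * D1 ^ 2)); 0, D0 ^ 2 * D1 ^ 2] :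
      Matrix (Fin 2) (Fin 2) (PS F)) := by
    rw [Matrix.isUnit_iff_isUnit_det]
    exact IsUnit.of_mul_eq_one _ hdet
  obtain ⟨U, hU⟩ := hU
  refine ⟨U, phiEquiv h2 e, ?_⟩
  have hP : ∀ f, phiEquiv h2 e f = phi e f := fun f => rfl
  have i0 : phi e (fam a b 0) = (X 0 * u) ^ 3 + (X 1 * v) ^ 5 + C a * (X 1 * v) ^ 6 +
      C b * (X 1 * v) ^ 8 := by
    simp only [fam, Matrix.cons_val_zero, map_add, map_mul, map_pow, phi_C, phi_X, hu0, hv0]
  have i1 : phi e (fam a b 1) = (X 0 * u) ^ 2 * (X 1 * v) + (X 0 * u) * (X 1 * v) ^ 2 := by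
    change phi e (X 0 ^ 2 * X 1 + X 0 * X 1 ^ 2) = _
    simp only [map_add, map_mul, map_pow, phi_X, hu0, hv0]
  have e1 : (u * D0) ^ 2 * (v * D1) ^ 2 = 1 := by rw [hu, hv]; ring
  have j1 : (D0 ^ 2 * D1 ^ 2) * phi e (fam a b 1) = h := by
    rw [i1, hh]
    linear_combination h * e1
  have j0 : t * phi e (fam a b 0) - t * s * h = g := by
    rw [i0, hm]
    linear_combination g * ht
  rw [hU]
  funext i
  fin_cases i
  · simp only [Matrix.mulVec, Fin.zero_eta, Fin.isValue, dotProduct, Fin.sum_univ_two,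
      Matrix.of_apply, Matrix.cons_val', Matrix.cons_val_zero, Matrix.cons_val_one, hP]
    change g = t * phi e (fam a b 0) + -(t * s * (D0 ^ 2 * D1 ^ 2)) * phi e (fam a b 1)
    linear_combination (-1 : PS F) * j0 + (t * s) * j1
  · simp only [Matrix.mulVec, Fin.mk_one, Fin.isValue, dotProduct, Fin.sum_univ_two,
      Matrix.of_apply, Matrix.cons_val', Matrix.cons_val_zero, Matrix.cons_val_one, hP]
    change h = 0 * phi e (fam a b 0) + (D0 ^ 2 * D1 ^ 2) * phi e (fam a b 1)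
    linear_combination (-1 : PS F) * j1

end Pool.Agent.Results.MP_3155f9_ag.AllEquivalent
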